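import Pool.Agent.D8S.Defs

/-!
# D8S/KLv: values of `KL` (generated)
-/

set_option autoImplicit false
set_option linter.unusedSimpArgs false
set_option linter.unusedVariables false
set_option linter.unnecessarySeqFocus false
set_option linter.unreachableTactic false
set_option linter.unusedTactic false

open scoped ComplexConjugate

namespace D8S

open D8 (V4)
open RVS (SS h2 KS k0 k1 k2 KL nn kap1 kap2 kap3 kap4)

theorem KLv0 : KL (1 : ℂ) = 1 := by
  have hc : conj (1 : ℂ) = 1 := by
    simp only [map_add, map_sub, map_mul, map_neg, map_div₀, map_ofNat, map_one, map_zero, conj_tau]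
    try ring
  refine RVS.KL_eq hc ?_
  linear_combination (0) * tau_sq

theorem KLv1 : KL (-2 + 6 * tau) = -1 / 8 := by
  have hc : conj (-2 + 6 * tau : ℂ) = 2 - 6 * tau := by
    simp only [map_add, map_sub, map_mul, map_neg, map_div₀, map_ofNat, map_one, map_zero, conj_tau]
    try ring
  refine RVS.KL_eq hc ?_
  linear_combination (-54 + 648 * tau - 3564 * tau ^ 2 + 7776 * tau ^ 3 - 5832 * tau ^ 4) * tau_sq

theorem KLv2 : KL (-1 + 6 * tau) = 1 / 27 - 4 / 27 * tau := by
  have hc : conj (-1 + 6 * tau : ℂ) = 3 - 6 * tau := by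
    simp only [map_add, map_sub, map_mul, map_neg, map_div₀, map_ofNat, map_one, map_zero, conj_tau]
    try ring
  refine RVS.KL_eq hc ?_
  linear_combination (-4 - 80 * tau + 560 * tau ^ 2 - 3456 * tau ^ 3 + 8640 * tau ^ 4 - 6912 * tau ^ 5) * tau_sq

theorem KLv3 : KL (tau) = 360 - 864 * tau := by
  have hc : conj (tau : ℂ) = 2 / 3 - tau := by
    simp only [map_add, map_sub, map_mul, map_neg, map_div₀, map_ofNat, map_one, map_zero, conj_tau]
    try ring
  refine RVS.KL_eq hc ?_
  linear_combination (-6 - 24 * tau - 60 * tau ^ 2 - 96 * tau ^ 3 + 936 * tau ^ 4 - 864 * tau ^ 5) * tau_sq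

end D8S
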