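import Pool.Agent.D8S.Sym
import Pool.Agent.D8S.KLv

/-!
# D8S/C1: four-line instance, `lam = 2 - 6 * tau`, lattice 0 0 (generated)
-/

set_option autoImplicit false
set_option linter.unusedSimpArgs false
set_option linter.unusedVariables false
set_option linter.unnecessarySeqFocus false
set_option linter.unreachableTactic false
set_option linter.unusedTactic false

open scoped ComplexConjugate

namespace D8S

open D8 (V4)
open RVS (SS h2 KS k0 k1 k2 KL nn kap1 kap2 kap3 kap4)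

def C1_D (n : V4) : V4 := ((n.1.1, n.1.2), (n.2.1, n.2.2))

theorem C1_b1 : Bas 0 0 C1_D where
  inj := by
    intro m n h
    simp only [C1_D, Prod.mk.injEq] at h
    obtain ⟨⟨h1, h2⟩, h3, h4⟩ := h
    ext <;> omega
  one := fun n => by
    simp only [C1_D, cA, cC, ln]
    try omega
  sur := fun y h1 h2 => by
    simp only [cA, cC, ln] at h1 h2
    refine ⟨((y.1.1, y.1.2), (y.2.1, y.2.2)), ?_⟩
    simp only [C1_D]
    try (ext <;> simp only [] <;> omega)

def C1_G2 (n : V4) : V4 := ((-2 * n.1.1 - 6 * n.1.2, n.1.1 + 2 * n.1.2), (n.2.1, n.2.2))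

theorem C1_b2 : Bas 1 0 C1_G2 where
  inj := by
    intro m n h
    simp only [C1_G2, Prod.mk.injEq] at h
    obtain ⟨⟨h1, h2⟩, h3, h4⟩ := h
    ext <;> omega
  one := fun n => by
    simp only [C1_G2, cA, cC, ln]
    try omega
  sur := fun y h1 h2 => by
    simp only [cA, cC, ln] at h1 h2
    refine ⟨((y.1.1 + 3 * y.1.2, (-y.1.1 - 2 * y.1.2) / 2), (y.2.1, y.2.2)), ?_⟩
    simp only [C1_G2]
    try (ext <;> simp only [] <;> omega)

def C1_G3 (n : V4) : V4 := ((3 * n.1.1 + 6 * n.1.2, -n.1.1 - n.1.2), (-n.1.1 - n.2.1, -n.1.2 - n.2.2))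

theorem C1_b3 : Bas 0 1 C1_G3 where
  inj := by
    intro m n h
    simp only [C1_G3, Prod.mk.injEq] at h
    obtain ⟨⟨h1, h2⟩, h3, h4⟩ := h
    ext <;> omega
  one := fun n => by
    simp only [C1_G3, cA, cC, ln]
    try omega
  sur := fun y h1 h2 => by
    simp only [cA, cC, ln] at h1 h2
    refine ⟨(((-y.1.1 - 6 * y.1.2) / 3, (y.1.1 + 3 * y.1.2) / 3), ((y.1.1 + 6 * y.1.2 - 3 * y.2.1) / 3, (-y.1.1 - 3 * y.1.2 - 3 * y.2.2) / 3)), ?_⟩
    simp only [C1_G3]
    try (ext <;> simp only [] <;> omega)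

def C1_G4 (n : V4) : V4 := ((3 * n.2.1 + 6 * n.2.2, -n.2.1 - n.2.2), (-2 * n.1.1 - 6 * n.1.2 - 2 * n.2.1 - 6 * n.2.2, n.1.1 + 2 * n.1.2 + n.2.1 + 2 * n.2.2))

theorem C1_b4 : Bas 2 1 C1_G4 where
  inj := by
    intro m n h
    simp only [C1_G4, Prod.mk.injEq] at h
    obtain ⟨⟨h1, h2⟩, h3, h4⟩ := h
    ext <;> omega
  one := fun n => by
    simp only [C1_G4, cA, cC, ln]
    try omega
  sur := fun y h1 h2 => by
    simp only [cA, cC, ln] at h1 h2
    refine ⟨(((y.1.1 + 6 * y.1.2 + 3 * y.2.1 + 9 * y.2.2) / 3, (-2 * y.1.1 - 6 * y.1.2 - 3 * y.2.1 - 6 * y.2.2) / 6), ((-y.1.1 - 6 * y.1.2) / 3, (y.1.1 + 3 * y.1.2) / 3)), ?_⟩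
    simp only [C1_G4]
    try (ext <;> simp only [] <;> omega)

theorem C1_f2 (P Q : ℂ) : HasSum (fun x => ind 0 0 x * KS ((2 - 6 * tau) * em x.1) (em x.2)
    ((2 - 6 * tau) * P) (Q)) ((1) * TT 1 0 ((2 - 6 * tau) * P) (Q)) := by
  have h := face C1_b1 C1_b2 (1 : ℂ) (y1 := fun x => (2 - 6 * tau) * em x.1) (y2 := fun x => em x.2)
    (fun n => by
      simp only [C1_D, C1_G2, em_eq]
      try push_cast
      try linear_combination (-6 * (n.1.1 : ℂ)) * tau_sq)
    (fun n => by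
      simp only [C1_D, C1_G2, em_eq]
      try push_cast
      try linear_combination (0) * tau_sq)
    ((2 - 6 * tau) * P) (Q)
  rw [KLv0] at h
  exact h

theorem C1_f3 (P Q : ℂ) : HasSum (fun x => ind 0 0 x * KS ((1 - (2 - 6 * tau)) * em x.1) (-(em x.1 + em x.2))
    ((1 - (2 - 6 * tau)) * P) (-(P + Q))) ((1) * TT 0 1 ((1 - (2 - 6 * tau)) * P) (-(P + Q))) := by
  have h := face C1_b1 C1_b3 (1 : ℂ) (y1 := fun x => (1 - (2 - 6 * tau)) * em x.1) (y2 := fun x => -(em x.1 + em x.2))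
    (fun n => by
      simp only [C1_D, C1_G3, em_eq]
      try push_cast
      try linear_combination (6 * (n.1.1 : ℂ)) * tau_sq)
    (fun n => by
      simp only [C1_D, C1_G3, em_eq]
      try push_cast
      try linear_combination (0) * tau_sq)
    ((1 - (2 - 6 * tau)) * P) (-(P + Q))
  rw [KLv0] at h
  exact h

theorem C1_f4 (P Q : ℂ) : HasSum (fun x => ind 0 0 x * KS ((1 - (2 - 6 * tau)) * em x.2) ((2 - 6 * tau) * (em x.1 + em x.2))
    ((1 - (2 - 6 * tau)) * Q) ((2 - 6 * tau) * (P + Q))) ((1) * TT 2 1 ((1 - (2 - 6 * tau)) * Q) ((2 - 6 * tau) * (P + Q))) := by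
  have h := face C1_b1 C1_b4 (1 : ℂ) (y1 := fun x => (1 - (2 - 6 * tau)) * em x.2) (y2 := fun x => (2 - 6 * tau) * (em x.1 + em x.2))
    (fun n => by
      simp only [C1_D, C1_G4, em_eq]
      try push_cast
      try linear_combination (6 * (n.2.1 : ℂ)) * tau_sq)
    (fun n => by
      simp only [C1_D, C1_G4, em_eq]
      try push_cast
      try linear_combination (-6 * (n.1.1 : ℂ) - 6 * (n.2.1 : ℂ)) * tau_sq)
    ((1 - (2 - 6 * tau)) * Q) ((2 - 6 * tau) * (P + Q))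
  rw [KLv0] at h
  exact h

def C1_i (s : ℤ × ℤ) : V4 := ((s.1, s.2), (2 * s.1 + 6 * s.2, -s.1 - 2 * s.2))

theorem C1_i1 (s : ℤ × ℤ) : (2 - 6 * tau) * em (C1_i s).1 + em (C1_i s).2 = 0 := by
  simp only [C1_i, em_eq]
  try push_cast
  try linear_combination (-6 * (s.1 : ℂ)) * tau_sq

theorem C1_l1 [DecidablePred fun x : V4 => em x.1 = 0] :
    HasSum (fun x : V4 => if em x.1 = 0 then ind 0 0 x * KL (em x.2) else 0) Lam := by
  refine (RVS.line (ι := fun s => ((0, s) : V4)) (fun m n h => by simpa using h) (c := ind 0 0)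
    (L := fun x : V4 => em x.1 = 0) (fun s => ind_one ?_) (fun s => em_zero.mpr rfl)
    (fun y _ hL => ⟨y.2, Prod.ext (em_zero.mp hL).symm rfl⟩) (fun x => KL (em x.2)) _).mp Lam_hasSum
  simp [cA, cC, ln]

theorem C1_l2 [DecidablePred fun x : V4 => em x.2 = 0] :
    HasSum (fun x : V4 => if em x.2 = 0 then ind 0 0 x * KL (em x.1) else 0) Lam := by
  refine (RVS.line (ι := fun s => ((s, 0) : V4)) (fun m n h => by simpa using h) (c := ind 0 0)
    (L := fun x : V4 => em x.2 = 0) (fun s => ind_one ?_) (fun s => em_zero.mpr rfl)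
    (fun y _ hL => ⟨y.1, Prod.ext rfl (em_zero.mp hL).symm⟩) (fun x => KL (em x.1)) _).mp Lam_hasSum
  simp [cA, cC, ln]

theorem C1_l3 [DecidablePred fun x : V4 => em x.1 + em x.2 = 0] :
    HasSum (fun x : V4 => if em x.1 + em x.2 = 0 then ind 0 0 x * KL (em x.1) else 0) Lam := by
  refine (RVS.line (ι := fun s => ((s, -s) : V4)) (fun m n h => by simpa using congrArg Prod.fst h)
    (c := ind 0 0) (L := fun x : V4 => em x.1 + em x.2 = 0) (fun s => ind_one ?_) (fun s => ?_)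
    (fun y _ hL => ?_) (fun x => KL (em x.1)) _).mp Lam_hasSum
  · simp [cA, cC, ln]
  · show em s + em (-s) = 0
    rw [em_neg]
    ring
  · have h1 : em (y.1 + y.2) = 0 := by rw [em_add]; exact hL
    have h2 := em_zero.mp h1
    exact ⟨y.1, Prod.ext rfl (eq_neg_of_add_eq_zero_right h2).symm⟩

theorem C1_l4 [DecidablePred fun x : V4 => (2 - 6 * tau) * em x.1 + em x.2 = 0] :
    HasSum (fun x : V4 => if (2 - 6 * tau) * em x.1 + em x.2 = 0 then ind 0 0 x * KL (em x.1)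
      else 0) Lam := by
  have hinj : Function.Injective C1_i := by
    intro m n h
    simp only [C1_i, Prod.mk.injEq] at h
    obtain ⟨⟨h1, h2⟩, h3, h4⟩ := h
    ext <;> omega
  refine (RVS.line hinj (c := ind 0 0)
    (L := fun x : V4 => (2 - 6 * tau) * em x.1 + em x.2 = 0) (fun s => ind_one ?_)
    (fun s => C1_i1 s) (fun y hy hL => ?_) (fun x => KL (em x.1)) _).mp ?_
  · simp [cA, cC, ln]
  · have h1 := C1_i1 y.1
    have h2 : em ((C1_i y.1).2 - y.2) = 0 := by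
      have h3 : (C1_i y.1).1 = y.1 := rfl
      rw [h3] at h1
      rw [sub_eq_add_neg, em_add, em_neg]
      linear_combination h1 - hL
    exact ⟨y.1, Prod.ext rfl (sub_eq_zero.mp (em_zero.mp h2))⟩
  · exact Lam_hasSum

theorem C1 (P Q : ℂ) :
    TT 0 0 P Q - 2 * ((1) * TT 1 0 ((2 - 6 * tau) * P) (Q))
      + 3 * ((1) * TT 0 1 ((1 - (2 - 6 * tau)) * P) (-(P + Q)))
      - 2 * 3 * ((1) * TT 2 1 ((1 - (2 - 6 * tau)) * Q) ((2 - 6 * tau) * (P + Q))) =
      -((4 - 12 * tau) * (h2 Q (P + Q) ((2 - 6 * tau) * P + Q) * Lam + (1 / 2) * h2 P (P + Q) (P + Q * (-1 + 3 * tau)) * Lam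
        + (1 / 3) * h2 P (-Q) (-(((2 - 6 * tau) * P + Q) * (1 - 2 * tau))) * Lam
        + (1 / 6) * h2 P (-(Q * (-1 + 3 * tau))) ((P + Q) * (1 - 2 * tau)) * Lam)) := by
  have hlb : conj (2 - 6 * tau) = (-2 + 6 * tau) := by
    simp only [map_add, map_sub, map_mul, map_neg, map_div₀, map_ofNat, map_one, map_zero, conj_tau]
    try ring
  have hmu : (2 - 6 * tau) * (-1 + 3 * tau) = 1 := by linear_combination (-18) * tau_sq
  have hnu : (1 - (2 - 6 * tau)) * (1 - 2 * tau) = 1 := by linear_combination (-12) * tau_sq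
  have hn1 : (2 - 6 * tau) * (-2 + 6 * tau) = 2 := by linear_combination (-36) * tau_sq
  have hn2 : (1 - (2 - 6 * tau)) * (1 - (-2 + 6 * tau)) = 3 := by linear_combination (-36) * tau_sq
  have h0 : (2 - 6 * tau) ≠ 0 := left_ne_zero_of_mul_eq_one hmu
  have h1 : 1 - (2 - 6 * tau) ≠ 0 := left_ne_zero_of_mul_eq_one hnu
  have k1 := RVS.kap1_eq hlb hmu hnu hn1 hn2 P Q
  have k2 := RVS.kap2_eq hlb hmu hnu hn1 hn2 P Q
  have k3 := RVS.kap3_eq hlb hmu hnu hn1 hn2 P Q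
  have k4 := RVS.kap4_eq hlb hmu hnu hn1 hn2 P Q
  have h := inst (c := ind 0 0) h0 h1 (T_hasSum 0 0 P Q) (C1_f2 P Q) (C1_f3 P Q)
    (C1_f4 P Q) C1_l1 C1_l2 C1_l3 C1_l4
  have e1 : nn (2 - 6 * tau) = 2 := by rw [nn, hlb, hn1]
  have e2 : nn (1 - (2 - 6 * tau)) = 3 := by rw [nn, map_sub, map_one, hlb, hn2]
  rw [e1, e2] at h
  linear_combination h + Lam * k1 + (1 / 2) * Lam * k2 + (1 / 3) * Lam * k3
    + (1 / 6) * Lam * k4

end D8S
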