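import Mathlib
import Pool.Agent.D8.Defs
import Pool.Agent.D8.Bas
import Pool.Agent.D8.Ker
import Pool.Agent.RVS.Kap

/-!
# D8S: the CM certificate for discriminant -8 (MP_870c49, project D8)

`M = ℤ t0 + ℤ = t0 ℤ[√-2]`, `t0 = (2+√-2)/6`, coordinates `(m, n) ↦ m t0 + n`.  Canonical kernel `RVS.KS`.
Types of lattices `a d`: `a` condition at `√-2` (`m` even), `d` condition at `1+√-2` (`3 ∣ m`); value `0` no condition,
`1` for `p`, `2` for `q`, `3` for `p + q`, `4` for `p - q`.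
Goal (D8S/Main): `D8.D2 (t0, 1) = (100 + 46 √-2) Lam8`.
-/

set_option autoImplicit false

open scoped ComplexConjugate

namespace D8S

open D8 (V4)
open RVS (SS h2 KS k0 k1 k2 KL)

noncomputable section

/-- `(2+√-2)/6` -/
def tau : ℂ := D8.t0

/-- `m t0 + n` -/
def em (v : ℤ × ℤ) : ℂ := D8.pt (D8.t0, 1) v

/-- `Σ t⁻⁴ t̄⁻²` over `M` -/
def Lam : ℂ := ∑' v : ℤ × ℤ, KL (em v)

/-- the linear forms of the conditions -/
def ln (j : ℕ) (x : V4) : ℤ :=
  match j with
  | 0 => 0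
  | 1 => x.1.1
  | 2 => x.2.1
  | 3 => x.1.1 + x.2.1
  | _ => x.1.1 - x.2.1

/-- condition at `√-2` -/
def cA (a : ℕ) (x : V4) : Prop := ln a x % 2 = 0
/-- condition at `1+√-2` -/
def cC (d : ℕ) (x : V4) : Prop := ln d x % 3 = 0

instance (a : ℕ) (x : V4) : Decidable (cA a x) := by unfold cA; infer_instance
instance (d : ℕ) (x : V4) : Decidable (cC d x) := by unfold cC; infer_instance

/-- indicator of the lattice of type `a d` -/
def ind (a d : ℕ) (x : V4) : ℂ := if cA a x ∧ cC d x then 1 else 0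

/-- the lattice sums -/
def T0 (a d : ℕ) : ℂ := ∑' x : V4, ind a d x * k0 (em x.1) (em x.2)
def T1 (a d : ℕ) : ℂ := ∑' x : V4, ind a d x * k1 (em x.1) (em x.2)
def T2 (a d : ℕ) : ℂ := ∑' x : V4, ind a d x * k2 (em x.1) (em x.2)

/-- the quadratic form -/
def TT (a d : ℕ) (P Q : ℂ) : ℂ := P ^ 2 * T0 a d + P * Q * T1 a d + Q ^ 2 * T2 a d

end

theorem tau_im : 0 < tau.im := by
  unfold tau D8.t0 D8W.pt D8W.y0
  simp

theorem good : D8.Good (D8.t0, 1) := D8.good_one tau_im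

theorem em_eq (v : ℤ × ℤ) : em v = v.1 * tau + v.2 := by
  unfold em D8.pt tau
  ring

theorem tau_val : tau = ⟨1 / 3, Real.sqrt 2 / 6⟩ := by
  unfold tau D8.t0 D8W.pt D8W.y0
  apply Complex.ext
  · simp
  · simp

theorem sq2 : Real.sqrt 2 * Real.sqrt 2 = 2 := Real.mul_self_sqrt (by norm_num)

theorem tau_sq : tau ^ 2 - 2 / 3 * tau + 1 / 6 = 0 := by
  rw [tau_val]
  apply Complex.ext
  · simp [pow_two]
    nlinarith [sq2]
  · simp [pow_two]
    ring

theorem conj_tau : conj tau = 2 / 3 - tau := by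
  rw [tau_val]
  apply Complex.ext
  · simp
    norm_num
  · simp

theorem em_zero {v : ℤ × ℤ} : em v = 0 ↔ v = 0 := D8.pt_eq_zero good

theorem em_add (v w : ℤ × ℤ) : em (v + w) = em v + em w := D8.pt_add _ v w

theorem em_neg (v : ℤ × ℤ) : em (-v) = -em v := D8.pt_neg _ v

end D8S
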