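import Pool.Agent.D8S.Rows

/-!
# D8S/Fin: the certificate (generated)
-/

set_option autoImplicit false
set_option linter.unusedSimpArgs false
set_option linter.unusedVariables false
set_option linter.unnecessarySeqFocus false
set_option linter.unreachableTactic false
set_option linter.unusedTactic false

open scoped ComplexConjugate

namespace D8S

open D8 (V4)
open RVS (SS h2 KS k0 k1 k2 KL nn kap1 kap2 kap3 kap4)

/-- the target functional -/
noncomputable def TF (a d : ℕ) : ℂ := 2 * T2 a d - T1 a d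

theorem TF_eq (a d : ℕ) : TF a d = 3 * TT a d 0 1 + TT a d 1 0 - TT a d 1 1 := by
  unfold TF TT
  ring

theorem TFv_1_0 : TF 1 0 = (-1) * T1 1 0 + (2) * T2 1 0 := by
  rw [TF_eq]
  simp only [TT]
  ring

theorem TFv_0_0 : TF 0 0 = (-1) * T1 0 0 + (2) * T2 0 0 := by
  rw [TF_eq]
  simp only [TT]
  ring

theorem TFv_1_3 : TF 1 3 = (-1) * T1 1 2 := by
  rw [TF_eq]
  simp only [S_1_3]
  simp only [TT]
  ring

theorem TFv_0_3 : TF 0 3 = (1) * T1 0 1 := by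
  rw [TF_eq]
  simp only [S_0_3]
  simp only [TT]
  ring

theorem TFv_2_2 : TF 2 2 = (-2) * T0 1 1 + (1) * T1 1 1 := by
  rw [TF_eq]
  simp only [S_2_2]
  simp only [TT]
  ring

theorem TFv_0_2 : TF 0 2 = (-2) * T0 0 1 + (1) * T1 0 1 := by
  rw [TF_eq]
  simp only [S_0_2]
  simp only [TT]
  ring

theorem TFv_3_4 : TF 3 4 = (1) * T1 1 4 := by
  rw [TF_eq]
  simp only [S_3_4]
  simp only [TT]
  ring

theorem TFv_0_4 : TF 0 4 = (-1) * T1 0 4 + (2) * T2 0 4 := by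
  rw [TF_eq]
  simp only [TT]
  ring

theorem fin : 2 * TF 1 0 + (-1) * TF 0 0 + (-4) * TF 1 3 + 2 * TF 0 3 + (-2) * TF 2 2 + 1 * TF 0 2 + 2 * TF 3 4 + (-1) * TF 0 4 =
    (32 / 9 - 82 / 9 * tau) * Lam := by
  rw [TFv_1_0, TFv_0_0, TFv_1_3, TFv_0_3, TFv_2_2, TFv_0_2, TFv_3_4, TFv_0_4]
  linear_combination (4) * H0_1
    + (4) * H1_0
    + (1 / 9 + 2 / 9 * tau) * R0_0
    + (4 / 9 - 10 / 9 * tau) * R0_1
    + (-2 / 9 + 2 / 9 * tau) * R0_2
    + (-73 / 9 + 34 / 9 * tau) * S00_12_0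
    + (16 / 9 - 7 / 9 * tau) * S00_12_2
    + (7 / 3 - 4 / 3 * tau) * S00_23_0
    + (-2) * S01_23_0
    + (3 / 2) * S01_23_1
    + (-7) * S04_12_0
    + (3 / 2) * S04_12_2
    + (2) * S04_23_0
    + (22 / 9 - 16 / 9 * tau) * S10_23_0
    + (1) * S10_23_1
    + (2) * S11_23_0
    + (-1) * S11_23_1
    + (-2) * S14_23_0
    + (1) * S14_23_1
    - ((16) * T0 0 1 + (-12) * T1 0 1 + (8 / 3) * T1 1 0 + (24) * T1 1 2 + (-64) * T2 1 2 + (368 / 9) * Lam) * tau_sq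

end D8S
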