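import Pool.Agent.D8S.Fin
import Pool.Agent.D8.Defs
import Pool.Agent.K3R.LFunEight

/-!
# D8S/Main: the certificate of the discriminant -8 instance

`Σ c(m_p, m_q) K13 = -(400 + 184 √-2) Lam8` over the lattice `ℤ t0 + ℤ`, `t0 = (2+√-2)/6`.
-/

set_option autoImplicit false

open scoped ComplexConjugate

namespace D8S

open D8 (V4)
open RVS (SS h2 KS k0 k1 k2 KL)

theorem ind_mul (a d : ℕ) (x : V4) : ind a d x =
    (if cA a x then 1 else 0) * (if cC d x then 1 else 0) := by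
  unfold ind
  by_cases h1 : cA a x <;> by_cases h2 : cC d x <;> simp [h1, h2]

theorem sg_eq (m : ℤ) : ((RVP.sg m : ℝ) : ℂ) = 2 * (if m % 2 = 0 then 1 else 0) - 1 := by
  unfold RVP.sg
  split_ifs <;> norm_num

theorem t3_eq (m : ℤ) : ((RVP.t3 m : ℝ) : ℂ) = if m % 3 = 0 then 1 else 0 := by
  unfold RVP.t3
  split_ifs <;> norm_num

theorem wt_pt (x : V4) : (D8.cw x.1.1 x.2.1 : ℂ) =
    2 * ind 1 0 x + (-1) * ind 0 0 x + (-4) * ind 1 3 x + 2 * ind 0 3 x + (-2) * ind 2 2 x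
      + 1 * ind 0 2 x + 2 * ind 3 4 x + (-1) * ind 0 4 x := by
  obtain ⟨⟨m, n⟩, ⟨m', n'⟩⟩ := x
  simp only [ind_mul, cA, cC, ln, Int.zero_emod, if_true]
  unfold D8.cw
  push_cast
  rw [sg_eq, sg_eq, sg_eq, t3_eq, t3_eq, t3_eq]
  ring

theorem hs (a d : ℕ) :
    HasSum (fun x : V4 => ind a d x * D8.K13 (D8.t0, 1) x) (TF a d) := by
  have s1 := ((w_sum k2_sum (ind_le a d)).hasSum).mul_left (2 : ℂ)
  have s2 := (w_sum k1_sum (ind_le a d)).hasSum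
  have h := s1.sub s2
  have e : (fun x : V4 => ind a d x * D8.K13 (D8.t0, 1) x) = fun x : V4 =>
      2 * (ind a d x * k2 (em x.1) (em x.2)) - ind a d x * k1 (em x.1) (em x.2) := by
    funext x
    unfold D8.K13 em
    ring
  rw [e]
  exact h

theorem wt_sum : ∑' x : V4, (D8.cw x.1.1 x.2.1 : ℂ) * D8.K13 (D8.t0, 1) x =
    2 * TF 1 0 + (-1) * TF 0 0 + (-4) * TF 1 3 + 2 * TF 0 3 + (-2) * TF 2 2 + 1 * TF 0 2
      + 2 * TF 3 4 + (-1) * TF 0 4 := by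
  have h := (((((((((hs 1 0).mul_left (2 : ℂ)).add ((hs 0 0).mul_left (-1 : ℂ))).add
    ((hs 1 3).mul_left (-4 : ℂ))).add ((hs 0 3).mul_left (2 : ℂ))).add
    ((hs 2 2).mul_left (-2 : ℂ))).add ((hs 0 2).mul_left (1 : ℂ))).add
    ((hs 3 4).mul_left (2 : ℂ))).add ((hs 0 4).mul_left (-1 : ℂ)))
  rw [← h.tsum_eq]
  refine tsum_congr fun x => ?_
  rw [wt_pt x]
  ring

/-- `v ↦ v / t0` -/
def eqv : ℤ × ℤ ≃ ℤ × ℤ where
  toFun v := (v.1 + 2 * v.2, -v.2)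
  invFun v := (v.1 + 2 * v.2, -v.2)
  left_inv v := by ext <;> simp
  right_inv v := by ext <;> simp

theorem el8_eq (v : ℤ × ℤ) : EtaE.el8 v = v.1 + v.2 * (6 * tau - 2) := by
  rw [tau_val]
  unfold EtaE.el8 LatL.lat
  apply Complex.ext
  · simp
    first | ring1 | (left; ring1) | (right; ring1)
  · simp
    first | ring1 | (left; ring1) | (right; ring1)

theorem em_el8 (v : ℤ × ℤ) : em v = tau * EtaE.el8 (eqv v) := by
  rw [el8_eq, em_eq]
  simp only [eqv, Equiv.coe_fn_mk]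
  push_cast
  linear_combination (6 * (v.2 : ℂ)) * tau_sq

theorem Lam_eq : Lam = (360 - 864 * tau) * EtaE.Lam8 := by
  have h : Lam = KL tau * EtaE.Lam8 := by
    unfold Lam EtaE.Lam8
    rw [← eqv.tsum_eq (fun p => 1 / (EtaE.el8 p ^ 4 * (starRingEnd ℂ (EtaE.el8 p)) ^ 2)),
      ← tsum_mul_left]
    refine tsum_congr fun v => ?_
    rw [em_el8, RVS.KL_mul]
    congr 1
    unfold KL
    rw [inv_pow, inv_pow, one_div, mul_inv]
  rw [h, KLv3]

theorem tau6 : ((Real.sqrt 2 : ℝ) : ℂ) * Complex.I = 6 * tau - 2 := by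
  rw [tau_val]
  apply Complex.ext
  · simp
    norm_num
  · simp
    ring

theorem main : ∑' x : V4, (D8.cw x.1.1 x.2.1 : ℂ) * D8.K13 (D8.t0, 1) x =
    -(400 + 184 * ((Real.sqrt 2 : ℝ) * Complex.I)) * EtaE.Lam8 := by
  rw [wt_sum, fin, Lam_eq, tau6]
  linear_combination (7872 * EtaE.Lam8) * tau_sq

end D8S
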