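import Pool.Agent.D8S.Sum
import Pool.Agent.RVS.Sym
import Pool.Agent.RVS.Hecke

/-!
# D8S/Sym: bases of lattices, faces, symmetries, distribution relations
-/

set_option autoImplicit false

open scoped ComplexConjugate

namespace D8S

open D8 (V4)
open RVS (SS h2 KS k0 k1 k2 KL s12 s23 e12 e23)

/-- `G : ℤ⁴ → V4` is a parametrisation of the lattice of type `a d` -/
structure Bas (a d : ℕ) (G : V4 → V4) : Prop where
  inj : Function.Injective G
  one : ∀ n, cA a (G n) ∧ cC d (G n)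
  sur : ∀ y, cA a y → cC d y → ∃ n, G n = y

theorem ind_one {a d : ℕ} {x : V4} (h : cA a x ∧ cC d x) : ind a d x = 1 := by
  unfold ind
  rw [if_pos h]

theorem ind_ne {a d : ℕ} {x : V4} (h : ind a d x ≠ 0) : cA a x ∧ cC d x := by
  by_contra h'
  exact h (by unfold ind; rw [if_neg h'])

theorem Bas.push {a d : ℕ} {G : V4 → V4} (h : Bas a d G) (f : V4 → ℂ) (S : ℂ) :
    HasSum (fun n => f (G n)) S ↔ HasSum (fun y => ind a d y * f y) S :=
  RVS.push h.inj (fun n => ind_one (h.one n)) (fun y hy => by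
    obtain ⟨h1, h2⟩ := ind_ne hy
    exact h.sur y h1 h2) f S

/-- a face of a four-line instance -/
theorem face {a d a' d' : ℕ} {D G : V4 → V4} (hD : Bas a d D)
    (hG : Bas a' d' G) (ρ : ℂ) {y1 y2 : V4 → ℂ} (e1 : ∀ n, y1 (D n) = ρ * em (G n).1)
    (e2 : ∀ n, y2 (D n) = ρ * em (G n).2) (P Q : ℂ) :
    HasSum (fun x => ind a d x * KS (y1 x) (y2 x) P Q) (KL ρ * TT a' d' P Q) := by
  rw [← hD.push (fun x => KS (y1 x) (y2 x) P Q)]
  have h := ((hG.push (fun x => KS (em x.1) (em x.2) P Q) _).mpr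
    (T_hasSum a' d' P Q)).mul_left (KL ρ)
  have e : (fun n => KS (y1 (D n)) (y2 (D n)) P Q) =
      fun n => KL ρ * KS (em (G n).1) (em (G n).2) P Q := by
    funext n
    rw [e1, e2, RVS.KS_scale]
  rw [e]
  exact h

theorem cA12 {a : ℕ} (ha : a ≤ 4) (x : V4) : cA (s12 a) (e12 x) ↔ cA a x := by
  unfold cA
  interval_cases a <;> simp [s12, e12, ln] <;> omega

theorem cC12 {d : ℕ} (hd : d ≤ 4) (x : V4) : cC (s12 d) (e12 x) ↔ cC d x := by
  unfold cC
  interval_cases d <;> simp [s12, e12, ln] <;> omega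

theorem cA23 {a : ℕ} (ha : a ≤ 4) (h4 : a ≠ 4) (x : V4) : cA (s23 a) (e23 x) ↔ cA a x := by
  unfold cA
  interval_cases a <;> simp [s23, e23, ln] at * <;> omega

theorem cC23 {d : ℕ} (hd : d ≤ 4) (x : V4) : cC (s23 d) (e23 x) ↔ cC d x := by
  unfold cC
  interval_cases d <;> simp [s23, e23, ln] <;> omega

theorem ind12 {a d : ℕ} (ha : a ≤ 4) (hd : d ≤ 4) (x : V4) :
    ind (s12 a) (s12 d) (e12 x) = ind a d x := by
  unfold ind
  simp only [cA12 ha, cC12 hd]

theorem ind23 {a d : ℕ} (ha : a ≤ 3) (hd : d ≤ 4) (x : V4) :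
    ind (s23 a) (s23 d) (e23 x) = ind a d x := by
  unfold ind
  simp only [cA23 (show a ≤ 4 by omega) (by omega), cC23 hd]

theorem TT12 {a d : ℕ} (ha : a ≤ 4) (hd : d ≤ 4) (P Q : ℂ) :
    TT (s12 a) (s12 d) Q P = -TT a d P Q := by
  have h1 := T_hasSum (s12 a) (s12 d) Q P
  rw [← e12.hasSum_iff] at h1
  have h2 := (T_hasSum a d P Q).neg
  have e : ((fun x : V4 => ind (s12 a) (s12 d) x * KS (em x.1) (em x.2) Q P) ∘ e12) =
      fun x : V4 => -(ind a d x * KS (em x.1) (em x.2) P Q) := by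
    funext x
    simp only [Function.comp]
    rw [ind12 ha hd]
    show ind a d x * KS (em x.2) (em x.1) Q P = _
    rw [RVS.KS_swap]
    ring
  rw [e] at h1
  exact h1.unique h2

theorem TT23 {a d : ℕ} (ha : a ≤ 3) (hd : d ≤ 4) (P Q : ℂ) :
    TT (s23 a) (s23 d) P (-(P + Q)) = -TT a d P Q := by
  have h1 := T_hasSum (s23 a) (s23 d) P (-(P + Q))
  rw [← e23.hasSum_iff] at h1
  have h2 := (T_hasSum a d P Q).neg
  have e : ((fun x : V4 => ind (s23 a) (s23 d) x *
      KS (em x.1) (em x.2) P (-(P + Q))) ∘ e23) =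
      fun x : V4 => -(ind a d x * KS (em x.1) (em x.2) P Q) := by
    funext x
    simp only [Function.comp]
    rw [ind23 ha hd]
    show ind a d x * KS (em x.1) (em (-(x.1 + x.2))) P (-(P + Q)) = _
    rw [em_neg, em_add, RVS.KS_rot]
    ring
  rw [e] at h1
  exact h1.unique h2

/-! ### distribution relations -/

/-- multiplication by `√-2` -/
def mR (v : ℤ × ℤ) : ℤ × ℤ := (2 * v.1 + 6 * v.2, -v.1 - 2 * v.2)

/-- multiplication by `1 + √-2` -/
def mP (v : ℤ × ℤ) : ℤ × ℤ := (3 * v.1 + 6 * v.2, -v.1 - v.2)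

theorem em_mR (v : ℤ × ℤ) : em (mR v) = (6 * tau - 2) * em v := by
  simp only [em_eq, mR]
  push_cast
  linear_combination (-6 * (v.1 : ℂ)) * tau_sq

theorem em_mP (v : ℤ × ℤ) : em (mP v) = (6 * tau - 1) * em v := by
  simp only [em_eq, mP]
  push_cast
  linear_combination (-6 * (v.1 : ℂ)) * tau_sq

/-- transport of a weighted lattice sum along a multiplication by `ρ` -/
theorem scale {g : ℤ × ℤ → ℤ × ℤ} (hg : Function.Injective g) {u v : V4 → ℂ}
    (hw : ∀ n, v (RVS.hkP g n) = u n) (h2 : ∀ y, v y ≠ 0 → ∃ n, RVS.hkP g n = y) (ρ : ℂ)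
    (e : ∀ n, em (g n) = ρ * em n) {P Q S : ℂ}
    (hS : HasSum (fun y => u y * KS (em y.1) (em y.2) P Q) S) :
    HasSum (fun y => v y * KS (em y.1) (em y.2) P Q) (KL ρ * S) := by
  rw [← RVS.pushw (RVS.hkP_inj fun x y h => hg h) hw h2 (fun y => KS (em y.1) (em y.2) P Q)]
  have h := hS.mul_left (KL ρ)
  have e' : (fun n : V4 => u n * KS (em (RVS.hkP g n).1) (em (RVS.hkP g n).2) P Q) =
      fun n => KL ρ * (u n * KS (em n.1) (em n.2) P Q) := by
    funext n
    show u n * KS (em (g n.1)) (em (g n.2)) P Q = _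
    rw [e, e, RVS.KS_scale]
    ring
  rw [e']
  exact h

/-- pairs in `√-2 M` -/
def hR (x : V4) : Prop := x.1.1 % 2 = 0 ∧ x.2.1 % 2 = 0
/-- pairs in `(1+√-2) M` -/
def hP (x : V4) : Prop := x.1.1 % 3 = 0 ∧ x.2.1 % 3 = 0

instance (x : V4) : Decidable (hR x) := by unfold hR; infer_instance
instance (x : V4) : Decidable (hP x) := by unfold hP; infer_instance

theorem mR_inj : Function.Injective mR := by
  intro x y h
  simp only [mR, Prod.mk.injEq] at h
  exact Prod.ext (by omega) (by omega)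

theorem mP_inj : Function.Injective mP := by
  intro x y h
  simp only [mP, Prod.mk.injEq] at h
  exact Prod.ext (by omega) (by omega)

theorem mR_range (y : V4) (h : hR y) : ∃ n, RVS.hkP mR n = y := by
  obtain ⟨⟨m, n⟩, ⟨m', n'⟩⟩ := y
  obtain ⟨h1, h2⟩ := h
  change m % 2 = 0 at h1
  change m' % 2 = 0 at h2
  refine ⟨((-(2 * (m / 2)) - 3 * n, m / 2 + n), (-(2 * (m' / 2)) - 3 * n', m' / 2 + n')), ?_⟩
  simp only [RVS.hkP, mR, Prod.mk.injEq]
  omega

theorem mP_range (y : V4) (h : hP y) : ∃ n, RVS.hkP mP n = y := by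
  obtain ⟨⟨m, n⟩, ⟨m', n'⟩⟩ := y
  obtain ⟨h1, h2⟩ := h
  change m % 3 = 0 at h1
  change m' % 3 = 0 at h2
  refine ⟨((-(m / 3) - 2 * n, m / 3 + n), (-(m' / 3) - 2 * n', m' / 3 + n')), ?_⟩
  simp only [RVS.hkP, mP, Prod.mk.injEq]
  omega

theorem cntR (d : ℕ) (x : V4) : ind 1 d x + ind 2 d x + ind 3 d x =
    ind 0 d x + 2 * (if hR x ∧ cC d x then 1 else 0) := by
  unfold ind
  by_cases h : cC d x
  · simp only [h, and_true]
    have h1 : cA 1 x ↔ x.1.1 % 2 = 0 := Iff.rfl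
    have h2 : cA 2 x ↔ x.2.1 % 2 = 0 := Iff.rfl
    have h3 : cA 3 x ↔ (x.1.1 + x.2.1) % 2 = 0 := Iff.rfl
    have h0 : cA 0 x := rfl
    by_cases g1 : x.1.1 % 2 = 0
    · by_cases g2 : x.2.1 % 2 = 0
      · have g3 : (x.1.1 + x.2.1) % 2 = 0 := by omega
        simp only [h1, h2, h3, h0, g1, g2, g3, hR, if_true, and_self]
        norm_num
      · have g3 : ¬ (x.1.1 + x.2.1) % 2 = 0 := by omega
        simp only [h1, h2, h3, h0, g1, g2, g3, hR, if_true, if_false, and_false]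
        norm_num
    · by_cases g2 : x.2.1 % 2 = 0
      · have g3 : ¬ (x.1.1 + x.2.1) % 2 = 0 := by omega
        simp only [h1, h2, h3, h0, g1, g2, g3, hR, if_true, if_false, false_and]
        norm_num
      · have g3 : (x.1.1 + x.2.1) % 2 = 0 := by omega
        simp only [h1, h2, h3, h0, g1, g2, g3, hR, if_true, if_false, false_and]
        norm_num
  · simp only [h, and_false, if_false]
    norm_num

theorem cntP (a : ℕ) (x : V4) : ind a 1 x + ind a 2 x + ind a 3 x + ind a 4 x =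
    ind a 0 x + 3 * (if cA a x ∧ hP x then 1 else 0) := by
  unfold ind
  by_cases h : cA a x
  · have h1 : cC 1 x ↔ x.1.1 % 3 = 0 := Iff.rfl
    have h2 : cC 2 x ↔ x.2.1 % 3 = 0 := Iff.rfl
    have h3 : cC 3 x ↔ (x.1.1 + x.2.1) % 3 = 0 := Iff.rfl
    have h4 : cC 4 x ↔ (x.1.1 - x.2.1) % 3 = 0 := Iff.rfl
    have h0 : cC 0 x := rfl
    simp only [h, h1, h2, h3, h4, h0, true_and, if_true, hP]
    exact RVS.hk_cnt3 _ _
  · simp only [h, false_and, if_false]
    norm_num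

theorem heckeR {d : ℕ} (hd : d ≤ 4) (P Q : ℂ) :
    TT 1 d P Q + TT 2 d P Q + TT 3 d P Q = TT 0 d P Q + 2 * (KL (6 * tau - 2) * TT 0 d P Q) := by
  have hv : HasSum (fun y : V4 => (if hR y ∧ cC d y then (1 : ℂ) else 0) * KS (em y.1) (em y.2) P Q)
      (KL (6 * tau - 2) * TT 0 d P Q) := by
    refine scale (g := mR) mR_inj (u := ind 0 d) (fun n => ?_)
      (fun y hy => mR_range y (RVS.hk_ite_ne hy).1) _ em_mR (T_hasSum 0 d P Q)
    unfold ind
    refine RVS.hk_ite ?_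
    obtain ⟨⟨p, q⟩, ⟨r, s⟩⟩ := n
    have e1 : hR (RVS.hkP mR ((p, q), r, s)) ↔ cA 0 (((p, q), r, s) : V4) := by
      simp only [hR, cA, ln, RVS.hkP, mR]
      omega
    have e2 : cC d (RVS.hkP mR ((p, q), r, s)) ↔ cC d (((p, q), r, s) : V4) := by
      unfold cC
      interval_cases d <;> simp only [ln, RVS.hkP, mR] <;> omega
    rw [e1, e2]
  have hl := ((T_hasSum 1 d P Q).add (T_hasSum 2 d P Q)).add (T_hasSum 3 d P Q)
  have hr := (T_hasSum 0 d P Q).add (hv.mul_left 2)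
  have e : (fun x : V4 => ind 1 d x * KS (em x.1) (em x.2) P Q +
      ind 2 d x * KS (em x.1) (em x.2) P Q + ind 3 d x * KS (em x.1) (em x.2) P Q) =
      fun x : V4 => ind 0 d x * KS (em x.1) (em x.2) P Q +
        2 * ((if hR x ∧ cC d x then (1 : ℂ) else 0) * KS (em x.1) (em x.2) P Q) := by
    funext x
    have := cntR d x
    linear_combination KS (em x.1) (em x.2) P Q * this
  rw [e] at hl
  exact hl.unique hr

theorem heckeP {a : ℕ} (ha : a ≤ 3) (P Q : ℂ) :
    TT a 1 P Q + TT a 2 P Q + TT a 3 P Q + TT a 4 P Q =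
      TT a 0 P Q + 3 * (KL (6 * tau - 1) * TT a 0 P Q) := by
  have hv : HasSum (fun y : V4 => (if cA a y ∧ hP y then (1 : ℂ) else 0) * KS (em y.1) (em y.2) P Q)
      (KL (6 * tau - 1) * TT a 0 P Q) := by
    refine scale (g := mP) mP_inj (u := ind a 0) (fun n => ?_)
      (fun y hy => mP_range y (RVS.hk_ite_ne hy).2) _ em_mP (T_hasSum a 0 P Q)
    unfold ind
    refine RVS.hk_ite ?_
    obtain ⟨⟨p, q⟩, ⟨r, s⟩⟩ := n
    have e1 : hP (RVS.hkP mP ((p, q), r, s)) ↔ cC 0 (((p, q), r, s) : V4) := by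
      simp only [hP, cC, ln, RVS.hkP, mP]
      omega
    have e2 : cA a (RVS.hkP mP ((p, q), r, s)) ↔ cA a (((p, q), r, s) : V4) := by
      unfold cA
      interval_cases a <;> simp only [ln, RVS.hkP, mP] <;> omega
    rw [e1, e2]
  have hl := (((T_hasSum a 1 P Q).add (T_hasSum a 2 P Q)).add (T_hasSum a 3 P Q)).add
    (T_hasSum a 4 P Q)
  have hr := (T_hasSum a 0 P Q).add (hv.mul_left 3)
  have e : (fun x : V4 => ind a 1 x * KS (em x.1) (em x.2) P Q +
      ind a 2 x * KS (em x.1) (em x.2) P Q + ind a 3 x * KS (em x.1) (em x.2) P Q +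
      ind a 4 x * KS (em x.1) (em x.2) P Q) =
      fun x : V4 => ind a 0 x * KS (em x.1) (em x.2) P Q +
        3 * ((if cA a x ∧ hP x then (1 : ℂ) else 0) * KS (em x.1) (em x.2) P Q) := by
    funext x
    have := cntP a x
    linear_combination KS (em x.1) (em x.2) P Q * this
  rw [e] at hl
  exact hl.unique hr

end D8S
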