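import Pool.Agent.D8S.KLv
import Pool.Agent.D8S.Sym
import Pool.Agent.D8S.C1

/-!
# D8S/Rows: scalar rows of all relations (generated)
-/

set_option autoImplicit false
set_option linter.unusedSimpArgs false
set_option linter.unusedVariables false
set_option linter.unnecessarySeqFocus false
set_option linter.unreachableTactic false
set_option linter.unusedTactic false

open scoped ComplexConjugate

namespace D8S

open D8 (V4)
open RVS (SS h2 KS k0 k1 k2 KL nn kap1 kap2 kap3 kap4)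

theorem E12_0_0 (P Q : ℂ) : TT 0 0 P Q = -TT 0 0 Q P := by
  have h := TT12 (a := 0) (d := 0) (by norm_num) (by norm_num) P Q
  have e : TT (RVS.s12 0) (RVS.s12 0) Q P = TT 0 0 Q P := rfl
  rw [e] at h
  rw [h, neg_neg]

theorem E12_0_2 (P Q : ℂ) : TT 0 2 P Q = -TT 0 1 Q P := by
  have h := TT12 (a := 0) (d := 2) (by norm_num) (by norm_num) P Q
  have e : TT (RVS.s12 0) (RVS.s12 2) Q P = TT 0 1 Q P := rfl
  rw [e] at h
  rw [h, neg_neg]

theorem E12_0_4 (P Q : ℂ) : TT 0 4 P Q = -TT 0 4 Q P := by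
  have h := TT12 (a := 0) (d := 4) (by norm_num) (by norm_num) P Q
  have e : TT (RVS.s12 0) (RVS.s12 4) Q P = TT 0 4 Q P := rfl
  rw [e] at h
  rw [h, neg_neg]

theorem E12_2_1 (P Q : ℂ) : TT 2 1 P Q = -TT 1 2 Q P := by
  have h := TT12 (a := 2) (d := 1) (by norm_num) (by norm_num) P Q
  have e : TT (RVS.s12 2) (RVS.s12 1) Q P = TT 1 2 Q P := rfl
  rw [e] at h
  rw [h, neg_neg]

theorem E12_2_2 (P Q : ℂ) : TT 2 2 P Q = -TT 1 1 Q P := by
  have h := TT12 (a := 2) (d := 2) (by norm_num) (by norm_num) P Q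
  have e : TT (RVS.s12 2) (RVS.s12 2) Q P = TT 1 1 Q P := rfl
  rw [e] at h
  rw [h, neg_neg]

theorem E12_2_4 (P Q : ℂ) : TT 2 4 P Q = -TT 1 4 Q P := by
  have h := TT12 (a := 2) (d := 4) (by norm_num) (by norm_num) P Q
  have e : TT (RVS.s12 2) (RVS.s12 4) Q P = TT 1 4 Q P := rfl
  rw [e] at h
  rw [h, neg_neg]

theorem E12_3_2 (P Q : ℂ) : TT 3 2 P Q = -TT 3 1 Q P := by
  have h := TT12 (a := 3) (d := 2) (by norm_num) (by norm_num) P Q
  have e : TT (RVS.s12 3) (RVS.s12 2) Q P = TT 3 1 Q P := rfl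
  rw [e] at h
  rw [h, neg_neg]

theorem E23_0_0 (P Q : ℂ) : TT 0 0 P Q = -TT 0 0 P (-(P + Q)) := by
  have h := TT23 (a := 0) (d := 0) (by norm_num) (by norm_num) P Q
  have e : TT (RVS.s23 0) (RVS.s23 0) P (-(P + Q)) = TT 0 0 P (-(P + Q)) := rfl
  rw [e] at h
  rw [h, neg_neg]

theorem E23_0_1 (P Q : ℂ) : TT 0 1 P Q = -TT 0 1 P (-(P + Q)) := by
  have h := TT23 (a := 0) (d := 1) (by norm_num) (by norm_num) P Q
  have e : TT (RVS.s23 0) (RVS.s23 1) P (-(P + Q)) = TT 0 1 P (-(P + Q)) := rfl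
  rw [e] at h
  rw [h, neg_neg]

theorem E23_0_3 (P Q : ℂ) : TT 0 3 P Q = -TT 0 2 P (-(P + Q)) := by
  have h := TT23 (a := 0) (d := 3) (by norm_num) (by norm_num) P Q
  have e : TT (RVS.s23 0) (RVS.s23 3) P (-(P + Q)) = TT 0 2 P (-(P + Q)) := rfl
  rw [e] at h
  rw [h, neg_neg]

theorem E23_0_4 (P Q : ℂ) : TT 0 4 P Q = -TT 0 4 P (-(P + Q)) := by
  have h := TT23 (a := 0) (d := 4) (by norm_num) (by norm_num) P Q
  have e : TT (RVS.s23 0) (RVS.s23 4) P (-(P + Q)) = TT 0 4 P (-(P + Q)) := rfl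
  rw [e] at h
  rw [h, neg_neg]

theorem E23_1_0 (P Q : ℂ) : TT 1 0 P Q = -TT 1 0 P (-(P + Q)) := by
  have h := TT23 (a := 1) (d := 0) (by norm_num) (by norm_num) P Q
  have e : TT (RVS.s23 1) (RVS.s23 0) P (-(P + Q)) = TT 1 0 P (-(P + Q)) := rfl
  rw [e] at h
  rw [h, neg_neg]

theorem E23_1_1 (P Q : ℂ) : TT 1 1 P Q = -TT 1 1 P (-(P + Q)) := by
  have h := TT23 (a := 1) (d := 1) (by norm_num) (by norm_num) P Q
  have e : TT (RVS.s23 1) (RVS.s23 1) P (-(P + Q)) = TT 1 1 P (-(P + Q)) := rfl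
  rw [e] at h
  rw [h, neg_neg]

theorem E23_1_3 (P Q : ℂ) : TT 1 3 P Q = -TT 1 2 P (-(P + Q)) := by
  have h := TT23 (a := 1) (d := 3) (by norm_num) (by norm_num) P Q
  have e : TT (RVS.s23 1) (RVS.s23 3) P (-(P + Q)) = TT 1 2 P (-(P + Q)) := rfl
  rw [e] at h
  rw [h, neg_neg]

theorem E23_1_4 (P Q : ℂ) : TT 1 4 P Q = -TT 1 4 P (-(P + Q)) := by
  have h := TT23 (a := 1) (d := 4) (by norm_num) (by norm_num) P Q
  have e : TT (RVS.s23 1) (RVS.s23 4) P (-(P + Q)) = TT 1 4 P (-(P + Q)) := rfl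
  rw [e] at h
  rw [h, neg_neg]

theorem E23_3_1 (P Q : ℂ) : TT 3 1 P Q = -TT 2 1 P (-(P + Q)) := by
  have h := TT23 (a := 3) (d := 1) (by norm_num) (by norm_num) P Q
  have e : TT (RVS.s23 3) (RVS.s23 1) P (-(P + Q)) = TT 2 1 P (-(P + Q)) := rfl
  rw [e] at h
  rw [h, neg_neg]

theorem E23_3_4 (P Q : ℂ) : TT 3 4 P Q = -TT 2 4 P (-(P + Q)) := by
  have h := TT23 (a := 3) (d := 4) (by norm_num) (by norm_num) P Q
  have e : TT (RVS.s23 3) (RVS.s23 4) P (-(P + Q)) = TT 2 4 P (-(P + Q)) := rfl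
  rw [e] at h
  rw [h, neg_neg]

theorem S_0_2 (P Q : ℂ) : TT 0 2 P Q = -TT 0 1 Q P := by
  rw [E12_0_2]

theorem S_0_3 (P Q : ℂ) : TT 0 3 P Q = TT 0 1 (-(P + Q)) P := by
  rw [E23_0_3, E12_0_2]
  ring

theorem S_1_3 (P Q : ℂ) : TT 1 3 P Q = -TT 1 2 P (-(P + Q)) := by
  rw [E23_1_3]

theorem S_2_1 (P Q : ℂ) : TT 2 1 P Q = -TT 1 2 Q P := by
  rw [E12_2_1]

theorem S_2_2 (P Q : ℂ) : TT 2 2 P Q = -TT 1 1 Q P := by
  rw [E12_2_2]

theorem S_3_2 (P Q : ℂ) : TT 3 2 P Q = -TT 1 2 (-(Q + P)) Q := by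
  rw [E12_3_2, E23_3_1, E12_2_1]
  ring

theorem S_3_4 (P Q : ℂ) : TT 3 4 P Q = TT 1 4 (-(P + Q)) P := by
  rw [E23_3_4, E12_2_4]
  ring

theorem R0_0 : (1) * T0 0 0 + (-15 + 36 * tau) * T0 0 1 + (3 - 18 * tau) * T1 0 1 + (3) * T2 0 1 + (4) * T0 1 0 + (-12) * T0 1 2 + (8 - 34 * tau) * Lam = 0 := by
  have h := C1 1 0
  simp only [S_2_1] at h
  simp only [TT, h2] at h
  linear_combination h - ((108) * T0 0 1 + (-72) * T0 1 0 + (216) * T0 1 2 + (228 - 696 * tau + 768 * tau ^ 2 - 576 * tau ^ 3) * Lam) * tau_sq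

theorem R0_1 : (1) * T2 0 0 + (3) * T2 0 1 + (-2) * T2 1 0 + (-12) * T0 1 2 + (24 - 36 * tau) * T1 1 2 + (-30 + 72 * tau) * T2 1 2 + (26 - 78 * tau) * Lam = 0 := by
  have h := C1 0 1
  simp only [S_2_1] at h
  simp only [TT, h2] at h
  linear_combination h - ((216) * T0 1 2 + (-216) * T1 1 2 + (216) * T2 1 2 + (36 - 108 * tau) * Lam) * tau_sq

theorem R0_2 : (1) * T0 0 0 + (1) * T1 0 0 + (1) * T2 0 0 + (-15 + 36 * tau) * T0 0 1 + (6 - 36 * tau) * T1 0 1 + (12) * T2 0 1 + (4) * T0 1 0 + (-4 + 12 * tau) * T1 1 0 + (-2) * T2 1 0 + (-48) * T0 1 2 + (48 - 72 * tau) * T1 1 2 + (-30 + 72 * tau) * T2 1 2 + (124 / 3 - 172 * tau) * Lam = 0 := by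
  have h := C1 1 1
  simp only [S_2_1] at h
  simp only [TT, h2] at h
  linear_combination h - ((108) * T0 0 1 + (-72) * T0 1 0 + (864) * T0 1 2 + (-432) * T1 1 2 + (216) * T2 1 2 + (560 - 1072 * tau + 960 * tau ^ 2 - 576 * tau ^ 3) * Lam) * tau_sq

theorem H0_1 : (3 / 4) * T0 0 1 + (-1) * T0 1 1 + (-1) * T0 1 2 + (1) * T1 1 2 = 0 := by
  have h := heckeR (d := 2) (by norm_num) 0 1
  have hk := KLv1
  have e : (6 * tau - 2 : ℂ) = -2 + 6 * tau := by ring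
  rw [e, hk] at h
  simp only [S_0_2, S_2_2, S_3_2] at h
  simp only [TT] at h
  linear_combination h - (0) * tau_sq

theorem H1_0 : (-10 / 9 + 4 / 9 * tau) * T0 1 0 + (1) * T0 1 1 + (1) * T1 1 2 + (-1) * T2 1 2 + (1) * T0 1 4 = 0 := by
  have h := heckeP (a := 1) (by norm_num) 1 0
  have hk := KLv2
  have e : (6 * tau - 1 : ℂ) = -1 + 6 * tau := by ring
  rw [e, hk] at h
  simp only [S_1_3] at h
  simp only [TT] at h
  linear_combination h - (0) * tau_sq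

theorem S00_12_0 : (1) * T0 0 0 + (1) * T2 0 0 = 0 := by
  have h := E12_0_0 1 0
  simp only [TT] at h
  linear_combination h

theorem S00_12_2 : (2) * T0 0 0 + (2) * T1 0 0 + (2) * T2 0 0 = 0 := by
  have h := E12_0_0 1 1
  simp only [TT] at h
  linear_combination h

theorem S00_23_0 : (2) * T0 0 0 + (-1) * T1 0 0 + (1) * T2 0 0 = 0 := by
  have h := E23_0_0 1 0
  simp only [TT] at h
  linear_combination h

theorem S01_23_0 : (2) * T0 0 1 + (-1) * T1 0 1 + (1) * T2 0 1 = 0 := by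
  have h := E23_0_1 1 0
  simp only [TT] at h
  linear_combination h

theorem S01_23_1 : (2) * T2 0 1 = 0 := by
  have h := E23_0_1 0 1
  simp only [TT] at h
  linear_combination h

theorem S04_12_0 : (1) * T0 0 4 + (1) * T2 0 4 = 0 := by
  have h := E12_0_4 1 0
  simp only [TT] at h
  linear_combination h

theorem S04_12_2 : (2) * T0 0 4 + (2) * T1 0 4 + (2) * T2 0 4 = 0 := by
  have h := E12_0_4 1 1
  simp only [TT] at h
  linear_combination h

theorem S04_23_0 : (2) * T0 0 4 + (-1) * T1 0 4 + (1) * T2 0 4 = 0 := by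
  have h := E23_0_4 1 0
  simp only [TT] at h
  linear_combination h

theorem S10_23_0 : (2) * T0 1 0 + (-1) * T1 1 0 + (1) * T2 1 0 = 0 := by
  have h := E23_1_0 1 0
  simp only [TT] at h
  linear_combination h

theorem S10_23_1 : (2) * T2 1 0 = 0 := by
  have h := E23_1_0 0 1
  simp only [TT] at h
  linear_combination h

theorem S11_23_0 : (2) * T0 1 1 + (-1) * T1 1 1 + (1) * T2 1 1 = 0 := by
  have h := E23_1_1 1 0
  simp only [TT] at h
  linear_combination h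

theorem S11_23_1 : (2) * T2 1 1 = 0 := by
  have h := E23_1_1 0 1
  simp only [TT] at h
  linear_combination h

theorem S14_23_0 : (2) * T0 1 4 + (-1) * T1 1 4 + (1) * T2 1 4 = 0 := by
  have h := E23_1_4 1 0
  simp only [TT] at h
  linear_combination h

theorem S14_23_1 : (2) * T2 1 4 = 0 := by
  have h := E23_1_4 0 1
  simp only [TT] at h
  linear_combination h

end D8S
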