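import Pool.Agent.D8S.Defs
import Pool.Agent.RVS.Inst

/-!
# D8S/Sum: absolute convergence, pushforward, the four-line relation summed over a lattice
-/

set_option autoImplicit false

open scoped ComplexConjugate

namespace D8S

open D8 (V4)
open RVS (SS h2 KS k0 k1 k2 KL nn F4 kap1 kap2 kap3 kap4)

theorem ind_le (a d : ℕ) (x : V4) : ‖ind a d x‖ ≤ 1 := by
  unfold ind
  split_ifs <;> simp

theorem ker_sum {a b c : ℕ} (ha : a ≤ 3) (hb : b ≤ 3) (hc : c ≤ 3) (h : a + b + c = 6) :
    Summable fun x : V4 =>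
      ‖(em x.1)⁻¹‖ ^ a * ‖(em x.2)⁻¹‖ ^ b * ‖(em x.1 + em x.2)⁻¹‖ ^ c := by
  refine (D8.ker_summable good ha hb hc h).congr fun x => ?_
  unfold D8.iv em
  rw [D8.pt_add]

theorem k0_sum : Summable fun x : V4 => ‖k0 (em x.1) (em x.2)‖ := by
  refine Summable.of_nonneg_of_le (fun x => norm_nonneg _) (fun x => RVS.k0_le _ _) ?_
  exact (((ker_sum (a := 3) (b := 1) (c := 2) (by norm_num) (by norm_num) (by norm_num)
    (by norm_num)).mul_left 2).add ((ker_sum (a := 1) (b := 2) (c := 3) (by norm_num)
    (by norm_num) (by norm_num) (by norm_num)).mul_left 2)).add ((ker_sum (a := 2) (b := 2)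
    (c := 2) (by norm_num) (by norm_num) (by norm_num) (by norm_num)).mul_left 2)

theorem k2_sum : Summable fun x : V4 => ‖k2 (em x.1) (em x.2)‖ := by
  refine Summable.of_nonneg_of_le (fun x => norm_nonneg _) (fun x => RVS.k2_le _ _) ?_
  exact (((ker_sum (a := 1) (b := 3) (c := 2) (by norm_num) (by norm_num) (by norm_num)
    (by norm_num)).mul_left 2).add ((ker_sum (a := 2) (b := 1) (c := 3) (by norm_num)
    (by norm_num) (by norm_num) (by norm_num)).mul_left 2)).add ((ker_sum (a := 2) (b := 2)
    (c := 2) (by norm_num) (by norm_num) (by norm_num) (by norm_num)).mul_left 2)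

theorem k1_sum : Summable fun x : V4 => ‖k1 (em x.1) (em x.2)‖ := by
  refine Summable.of_nonneg_of_le (fun x => norm_nonneg _) (fun x => RVS.k1_le _ _) ?_
  exact ((ker_sum (a := 1) (b := 2) (c := 3) (by norm_num)
    (by norm_num) (by norm_num) (by norm_num)).mul_left 4).add ((ker_sum (a := 2) (b := 2)
    (c := 2) (by norm_num) (by norm_num) (by norm_num) (by norm_num)).mul_left 6)

theorem w_sum {f g : V4 → ℂ} {C : ℝ} (hf : Summable fun x => ‖f x‖) (hg : ∀ x, ‖g x‖ ≤ C) :
    Summable fun x => g x * f x := by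
  refine Summable.of_norm_bounded (hf.mul_left C) fun x => ?_
  rw [norm_mul]
  exact mul_le_mul_of_nonneg_right (hg x) (norm_nonneg _)

theorem T_hasSum (a d : ℕ) (P Q : ℂ) :
    HasSum (fun x : V4 => ind a d x * KS (em x.1) (em x.2) P Q) (TT a d P Q) := by
  have s0 := (w_sum k0_sum (ind_le a d)).hasSum
  have s1 := (w_sum k1_sum (ind_le a d)).hasSum
  have s2 := (w_sum k2_sum (ind_le a d)).hasSum
  have h := ((s0.mul_left (P ^ 2)).add (s1.mul_left (P * Q))).add (s2.mul_left (Q ^ 2))
  unfold TT T0 T1 T2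
  have e : (fun x : V4 => ind a d x * KS (em x.1) (em x.2) P Q) = fun x : V4 =>
      P ^ 2 * (ind a d x * k0 (em x.1) (em x.2)) + P * Q * (ind a d x * k1 (em x.1) (em x.2))
        + Q ^ 2 * (ind a d x * k2 (em x.1) (em x.2)) := by
    funext x
    rw [RVS.KS_eq]
    ring
  rw [e]
  exact h

theorem em_KL_sum : Summable fun v : ℤ × ℤ => ‖KL (em v)‖ := by
  refine (D8.summable_iv (k := 6) good (by norm_num)).congr fun v => ?_
  unfold KL em D8.iv
  simp only [norm_mul, norm_pow, norm_inv, RCLike.norm_conj]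
  ring

theorem Lam_hasSum : HasSum (fun v : ℤ × ℤ => KL (em v)) Lam := em_KL_sum.of_norm.hasSum

open Classical in
theorem inst {c : V4 → ℂ} {lam : ℂ} (h0 : lam ≠ 0) (h1 : 1 - lam ≠ 0) {P Q A B C D : ℂ}
    (hA : HasSum (fun x => c x * KS (em x.1) (em x.2) P Q) A)
    (hB : HasSum (fun x => c x * KS (lam * em x.1) (em x.2) (lam * P) Q) B)
    (hC : HasSum (fun x => c x * KS ((1 - lam) * em x.1) (-(em x.1 + em x.2)) ((1 - lam) * P)
      (-(P + Q))) C)
    (hD : HasSum (fun x => c x * KS ((1 - lam) * em x.2) (lam * (em x.1 + em x.2))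
      ((1 - lam) * Q) (lam * (P + Q))) D) {l1 l2 l3 l4 : ℂ}
    (s1 : HasSum (fun x : V4 => if em x.1 = 0 then c x * KL (em x.2) else 0) l1)
    (s2 : HasSum (fun x : V4 => if em x.2 = 0 then c x * KL (em x.1) else 0) l2)
    (s3 : HasSum (fun x : V4 => if em x.1 + em x.2 = 0 then c x * KL (em x.1) else 0) l3)
    (s4 : HasSum (fun x : V4 => if lam * em x.1 + em x.2 = 0 then c x * KL (em x.1) else 0) l4) :
    A - nn lam * B + nn (1 - lam) * C - nn lam * nn (1 - lam) * D =
      kap1 lam P Q * l1 + kap2 lam P Q * l2 + kap3 lam P Q * l3 + kap4 lam P Q * l4 := by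
  have hF : HasSum (fun x : V4 => c x * F4 lam P Q (em x.1) (em x.2))
      (A - nn lam * B + nn (1 - lam) * C - nn lam * nn (1 - lam) * D) := by
    have h := ((hA.sub (hB.mul_left (nn lam))).add (hC.mul_left (nn (1 - lam)))).sub
      (hD.mul_left (nn lam * nn (1 - lam)))
    have e : (fun x : V4 => c x * F4 lam P Q (em x.1) (em x.2)) = fun x : V4 =>
        c x * KS (em x.1) (em x.2) P Q
        - nn lam * (c x * KS (lam * em x.1) (em x.2) (lam * P) Q)
        + nn (1 - lam) * (c x * KS ((1 - lam) * em x.1) (-(em x.1 + em x.2)) ((1 - lam) * P)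
          (-(P + Q)))
        - nn lam * nn (1 - lam) * (c x * KS ((1 - lam) * em x.2) (lam * (em x.1 + em x.2))
          ((1 - lam) * Q) (lam * (P + Q))) := by
      funext x
      unfold F4
      ring
    rw [e]
    exact h
  have t1 : HasSum (fun x : V4 => if em x.1 = 0 then c x * F4 lam P Q (em x.1) (em x.2) else 0)
      (kap1 lam P Q * l1) := by
    have e : (fun x : V4 => if em x.1 = 0 then c x * F4 lam P Q (em x.1) (em x.2) else 0) =
        fun x : V4 => kap1 lam P Q * (if em x.1 = 0 then c x * KL (em x.2) else 0) := by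
      funext x
      by_cases h : em x.1 = 0
      · rw [if_pos h, if_pos h, h, RVS.F4_1]
        ring
      · rw [if_neg h, if_neg h, mul_zero]
    rw [e]
    exact s1.mul_left _
  have t2 : HasSum (fun x : V4 => if em x.2 = 0 then c x * F4 lam P Q (em x.1) (em x.2) else 0)
      (kap2 lam P Q * l2) := by
    have e : (fun x : V4 => if em x.2 = 0 then c x * F4 lam P Q (em x.1) (em x.2) else 0) =
        fun x : V4 => kap2 lam P Q * (if em x.2 = 0 then c x * KL (em x.1) else 0) := by
      funext x
      by_cases h : em x.2 = 0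
      · rw [if_pos h, if_pos h, h, RVS.F4_2]
        ring
      · rw [if_neg h, if_neg h, mul_zero]
    rw [e]
    exact s2.mul_left _
  have t3 : HasSum (fun x : V4 => if em x.1 + em x.2 = 0 then
      c x * F4 lam P Q (em x.1) (em x.2) else 0) (kap3 lam P Q * l3) := by
    have e : (fun x : V4 => if em x.1 + em x.2 = 0 then c x * F4 lam P Q (em x.1) (em x.2) else 0) =
        fun x : V4 => kap3 lam P Q * (if em x.1 + em x.2 = 0 then c x * KL (em x.1) else 0) := by
      funext x
      by_cases h : em x.1 + em x.2 = 0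
      · rw [if_pos h, if_pos h, RVS.F4_3 h]
        ring
      · rw [if_neg h, if_neg h, mul_zero]
    rw [e]
    exact s3.mul_left _
  have t4 : HasSum (fun x : V4 => if lam * em x.1 + em x.2 = 0 then
      c x * F4 lam P Q (em x.1) (em x.2) else 0) (kap4 lam P Q * l4) := by
    have e : (fun x : V4 => if lam * em x.1 + em x.2 = 0 then c x * F4 lam P Q (em x.1) (em x.2) else 0) =
        fun x : V4 => kap4 lam P Q * (if lam * em x.1 + em x.2 = 0 then c x * KL (em x.1) else 0) := by
      funext x
      by_cases h : lam * em x.1 + em x.2 = 0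
      · rw [if_pos h, if_pos h, RVS.F4_4 h]
        ring
      · rw [if_neg h, if_neg h, mul_zero]
    rw [e]
    exact s4.mul_left _
  have z : ∀ x : V4, em x.1 = 0 → em x.2 = 0 → c x * F4 lam P Q (em x.1) (em x.2) = 0 := by
    intro x hx hy
    rw [hx, hy, RVS.F4_00, mul_zero]
  have hG := RVS.lines4 (F := fun x : V4 => c x * F4 lam P Q (em x.1) (em x.2))
    (A := fun x => em x.1 = 0) (B := fun x => em x.2 = 0) (C := fun x => em x.1 + em x.2 = 0)
    (D := fun x => lam * em x.1 + em x.2 = 0)
    (fun x a b c' d => by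
      show c x * F4 lam P Q (em x.1) (em x.2) = 0
      rw [RVS.F4_off h0 h1 a b c' d, mul_zero])
    (fun x a b => z x a b)
    (fun x a b => z x a (by
      have a' : em x.1 = 0 := a
      have b' : em x.1 + em x.2 = 0 := b
      rw [a', zero_add] at b'
      exact b'))
    (fun x a b => z x a (by
      have a' : em x.1 = 0 := a
      have b' : lam * em x.1 + em x.2 = 0 := b
      rw [a', mul_zero, zero_add] at b'
      exact b'))
    (fun x a b => z x (by
      have a' : em x.2 = 0 := a
      have b' : em x.1 + em x.2 = 0 := b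
      rw [a', add_zero] at b'
      exact b') a)
    (fun x a b => z x (by
      have a' : em x.2 = 0 := a
      have b' : lam * em x.1 + em x.2 = 0 := b
      rw [a', add_zero] at b'
      exact (mul_eq_zero.mp b').resolve_left h0) a)
    (fun x a b => by
      have a' : em x.1 + em x.2 = 0 := a
      have b' : lam * em x.1 + em x.2 = 0 := b
      have h2 : (1 - lam) * em x.1 = 0 := by linear_combination a' - b'
      have h3 : em x.1 = 0 := (mul_eq_zero.mp h2).resolve_left h1
      refine z x h3 ?_
      rw [h3, zero_add] at a'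
      exact a')
    t1 t2 t3 t4
  exact hF.unique hG

end D8S
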